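import Mathlib

set_option autoImplicit false

namespace Pool.Agent.MP_4985b1_co

open Finset

/-- If `c = h + j` with `h` strictly increasing and `j` non-increasing with values in `[0, D]`,
then at most `D` positions fail to be strict left-to-right records of `c`. -/
theorem records {β : Type*} (s : Finset β) (σ h j : β → ℤ) (D : ℕ)
    [DecidablePred fun y => ∃ x ∈ s, σ x < σ y ∧ h y + j y ≤ h x + j x]
    (hinj : ∀ x ∈ s, ∀ y ∈ s, σ x = σ y → x = y)
    (hh : ∀ x ∈ s, ∀ y ∈ s, σ x < σ y → h x < h y)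
    (hj : ∀ x ∈ s, ∀ y ∈ s, σ x < σ y → j y ≤ j x)
    (h0 : ∀ x ∈ s, 0 ≤ j x) (hD : ∀ x ∈ s, j x ≤ D) :
    (s.filter fun y => ∃ x ∈ s, σ x < σ y ∧ h y + j y ≤ h x + j x).card ≤ D := by
  classical
  set N := s.filter fun y => ∃ x ∈ s, σ x < σ y ∧ h y + j y ≤ h x + j x with hN
  have key : ∀ y ∈ N, ∃ x ∈ s, σ x < σ y ∧ h y + j y ≤ h x + j x ∧
      ∀ x' ∈ s, σ x' < σ y → h x' + j x' ≤ h x + j x := by
    intro y hy
    obtain ⟨_, x, hx, hxy, hc⟩ := mem_filter.1 hy
    obtain ⟨x0, hx0, hmax⟩ := Finset.exists_max_image (s.filter fun x => σ x < σ y)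
      (fun x => h x + j x) ⟨x, mem_filter.2 ⟨hx, hxy⟩⟩
    obtain ⟨hx0s, hx0y⟩ := mem_filter.1 hx0
    refine ⟨x0, hx0s, hx0y, le_trans hc (hmax x (mem_filter.2 ⟨hx, hxy⟩)), ?_⟩
    intro x' hx' hlt
    exact hmax x' (mem_filter.2 ⟨hx', hlt⟩)
  choose! m hms hmlt hmge hmmax using key
  have hNs : ∀ y ∈ N, y ∈ s := fun y hy => (mem_filter.1 hy).1
  have hdec : ∀ y ∈ N, ∀ y' ∈ N, σ y < σ y' →
      h (m y') + j (m y') - h y' < h (m y) + j (m y) - h y := by
    intro y hy y' hy' hlt
    have h1 := hh y (hNs y hy) y' (hNs y' hy') hlt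
    by_cases hc : σ (m y') < σ y
    · have := hmmax y hy (m y') (hms y' hy') hc
      omega
    · have h2 : j (m y') ≤ j y := by
        rcases lt_or_eq_of_le (not_lt.1 hc) with h3 | h3
        · exact hj y (hNs y hy) _ (hms y' hy') h3
        · rw [← hinj y (hNs y hy) _ (hms y' hy') h3]
      have h3 := hh _ (hms y' hy') y' (hNs y' hy') (hmlt y' hy')
      have h4 := hmge y hy
      omega
  have hcard : N.card ≤ (Finset.Ico (0 : ℤ) D).card := by
    apply Finset.card_le_card_of_injOn (fun y => h (m y) + j (m y) - h y)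
    · intro y hy
      have hy' : y ∈ N := hy
      have h1 := hmge y hy'
      have h2 := h0 y (hNs y hy')
      have h3 := hh _ (hms y hy') y (hNs y hy') (hmlt y hy')
      have h4 := hD _ (hms y hy')
      simp only [coe_Ico, Set.mem_Ico]
      omega
    · intro y hy y' hy' heq
      have hy1 : y ∈ N := hy
      have hy2 : y' ∈ N := hy'
      rcases lt_trichotomy (σ y) (σ y') with hlt | hlt | hlt
      · have := hdec y hy1 y' hy2 hlt
        simp only at heq
        omega
      · exact hinj y (hNs y hy1) y' (hNs y' hy2) hlt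
      · have := hdec y' hy2 y hy1 hlt
        simp only at heq
        omega
  simpa using hcard

end Pool.Agent.MP_4985b1_co
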