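import Mathlib
import Pool.Agent.MP_4985b1_co.Records

set_option autoImplicit false

namespace Pool.Agent.MP_4985b1_co

open Finset

section
variable {ι : Type*} (X Y : ι → ℝ)

/-- Height of the line through `p` and `q` above the point `z`. -/
noncomputable def H (p q z : ι) : ℝ :=
  (Y q - Y p) / (X q - X p) * (X z - X p) + Y p - Y z

/-- Number of points of `S` strictly below the line through `p` and `q`. -/
noncomputable def cnt (S : Finset ι) (p q : ι) : ℕ :=
  (S.filter fun z => 0 < H X Y p q z).card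

/-- General position. -/
def GP : Prop := ∀ p q z : ι, p ≠ q → p ≠ z → q ≠ z → H X Y p q z ≠ 0

/-- `A` lies to the left of `B`. -/
def Lft (A B : Finset ι) : Prop := ∀ a ∈ A, ∀ b ∈ B, X a < X b

/-- The line through `p` and `q` has points of `S` strictly on both sides. -/
def Split (p q : ι) (S : Finset ι) : Prop :=
  (∃ b ∈ S, 0 < H X Y p q b) ∧ (∃ b ∈ S, H X Y p q b < 0)

open Classical in
/-- Number of pairs of points of `A` whose line splits `B`. -/
noncomputable def spl (A B : Finset ι) : ℕ :=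
  ((A ×ˢ A).filter fun e => X e.1 < X e.2 ∧ Split X Y e.1 e.2 B).card

variable {X Y}

theorem H_left (p q : ι) : H X Y p q p = 0 := by simp [H]

theorem H_right {p q : ι} (h : X p ≠ X q) : H X Y p q q = 0 := by
  have : X q - X p ≠ 0 := sub_ne_zero.2 h.symm
  unfold H
  field_simp
  ring

theorem H_symm {p q : ι} (h : X p ≠ X q) (z : ι) : H X Y p q z = H X Y q p z := by
  have h1 : X q - X p ≠ 0 := sub_ne_zero.2 h.symm
  have h2 : X p - X q ≠ 0 := sub_ne_zero.2 h
  unfold H
  field_simp
  ring

theorem H_neg (p q z : ι) : H (fun z => - X z) Y p q z = H X Y p q z := by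
  unfold H
  have : -X q - -X p = -(X q - X p) := by ring
  simp only [this, div_neg]
  ring

theorem H_cyc {z a b : ι} (h1 : X z ≠ X a) (h2 : X a ≠ X b) :
    H X Y z a b * (X a - X z) = H X Y a b z * (X b - X a) := by
  have h1 : X a - X z ≠ 0 := sub_ne_zero.2 h1.symm
  have h2 : X b - X a ≠ 0 := sub_ne_zero.2 h2.symm
  unfold H
  field_simp
  ring

theorem H_diff (p q p' q' : ι) :
    ∃ α β : ℝ, ∀ z, H X Y p' q' z - H X Y p q z = α * X z + β := by
  refine ⟨(Y q' - Y p') / (X q' - X p') - (Y q - Y p) / (X q - X p),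
    Y p' - Y p - (Y q' - Y p') / (X q' - X p') * X p' + (Y q - Y p) / (X q - X p) * X p, ?_⟩
  intro z
  unfold H
  ring

theorem H_pencil (a b b' : ι) :
    ∃ α : ℝ, ∀ z, H X Y a b' z - H X Y a b z = α * (X z - X a) := by
  refine ⟨(Y b' - Y a) / (X b' - X a) - (Y b - Y a) / (X b - X a), ?_⟩
  intro z
  unfold H
  ring

theorem affine_sign {A B : Finset ι} (hAB : Lft X A B) {α β : ℝ} (h : ¬ (α = 0 ∧ β = 0)) :
    (∀ z ∈ A, 0 < α * X z + β) ∨ (∀ z ∈ A, α * X z + β < 0) ∨
      (∀ z ∈ B, 0 < α * X z + β) ∨ (∀ z ∈ B, α * X z + β < 0) := by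
  by_contra hc
  push Not at hc
  obtain ⟨⟨z1, hz1, h1⟩, ⟨z2, hz2, h2⟩, ⟨z3, hz3, h3⟩, ⟨z4, hz4, h4⟩⟩ := hc
  have e1 := hAB z2 hz2 z3 hz3
  have e2 := hAB z1 hz1 z4 hz4
  have ha : α = 0 := by
    rcases lt_trichotomy α 0 with hlt | hlt | hlt
    · nlinarith
    · exact hlt
    · nlinarith
  subst ha
  exact h ⟨rfl, by linarith⟩

theorem cnt_lt {S : Finset ι} {p q p' q' w : ι} (hw : w ∈ S) (hw0 : H X Y p q w = 0)
    (h : ∀ z ∈ S, H X Y p q z < H X Y p' q' z) : cnt X Y S p q < cnt X Y S p' q' := by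
  unfold cnt
  apply Finset.card_lt_card
  refine ⟨?_, ?_⟩
  · intro z hz
    obtain ⟨h1, h2⟩ := mem_filter.1 hz
    exact mem_filter.2 ⟨h1, lt_trans h2 (h z h1)⟩
  · intro hsub
    have h1 : w ∈ S.filter fun z => 0 < H X Y p' q' z :=
      mem_filter.2 ⟨hw, hw0 ▸ h w hw⟩
    have h2 := (mem_filter.1 (hsub h1)).2
    rw [hw0] at h2
    exact lt_irrefl _ h2

theorem cnt_le {S : Finset ι} {p q p' q' : ι}
    (h : ∀ z ∈ S, H X Y p q z ≤ H X Y p' q' z) : cnt X Y S p q ≤ cnt X Y S p' q' := by
  unfold cnt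
  apply Finset.card_le_card
  intro z hz
  obtain ⟨h1, h2⟩ := mem_filter.1 hz
  exact mem_filter.2 ⟨h1, lt_of_lt_of_le h2 (h z h1)⟩

theorem cnt_lt_card {S : Finset ι} {p q w : ι} (hw : w ∈ S) (hw0 : H X Y p q w = 0) :
    cnt X Y S p q < S.card := by
  unfold cnt
  apply Finset.card_lt_card
  refine ⟨filter_subset _ _, ?_⟩
  intro hsub
  have h2 := (mem_filter.1 (hsub hw)).2
  rw [hw0] at h2
  exact lt_irrefl _ h2

/-- Two lines with the same rank in `B` are equal or comparable over `A`. -/
theorem same_rank (hG : GP X Y) {A B : Finset ι} (hAB : Lft X A B) {a a' b b' : ι}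
    (ha : a ∈ A) (ha' : a' ∈ A) (hb : b ∈ B) (hb' : b' ∈ B)
    (h : cnt X Y B a b = cnt X Y B a' b') :
    (a = a' ∧ b = b') ∨ (∀ z ∈ A, H X Y a b z < H X Y a' b' z) ∨
      (∀ z ∈ A, H X Y a' b' z < H X Y a b z) := by
  obtain ⟨α, β, hd⟩ := H_diff (X := X) (Y := Y) a b a' b'
  have hab := hAB a ha b hb
  have hab' := hAB a' ha' b' hb'
  have hne : ∀ x ∈ A, ∀ y ∈ B, x ≠ y := fun x hx y hy hxy => by
    have := hAB x hx y hy
    rw [hxy] at this
    exact lt_irrefl _ this
  by_cases h0 : α = 0 ∧ β = 0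
  · left
    obtain ⟨rfl, rfl⟩ := h0
    have e1 : H X Y a b a' = 0 := by
      have := hd a'
      rw [H_left] at this
      linarith
    have e2 : H X Y a b b' = 0 := by
      have := hd b'
      rw [H_right hab'.ne] at this
      linarith
    constructor
    · by_contra hc
      exact hG a b a' (hne a ha b hb) hc (hne a' ha' b hb).symm e1
    · by_contra hc
      exact hG a b b' (hne a ha b hb) (hne a ha b' hb') hc e2
  · rcases affine_sign hAB h0 with h1 | h1 | h1 | h1
    · right; left
      intro z hz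
      have := h1 z hz
      have := hd z
      linarith
    · right; right
      intro z hz
      have := h1 z hz
      have := hd z
      linarith
    · exfalso
      have : cnt X Y B a b < cnt X Y B a' b' := by
        apply cnt_lt hb (H_right hab.ne)
        intro z hz
        have := h1 z hz
        have := hd z
        linarith
      omega
    · exfalso
      have : cnt X Y B a' b' < cnt X Y B a b := by
        apply cnt_lt hb' (H_right hab'.ne)
        intro z hz
        have := h1 z hz
        have := hd z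
        linarith
      omega

theorem rank_inj (hG : GP X Y) {A B : Finset ι} (hAB : Lft X A B) {a a' b b' : ι}
    (ha : a ∈ A) (ha' : a' ∈ A) (hb : b ∈ B) (hb' : b' ∈ B)
    (h : cnt X Y B a b = cnt X Y B a' b') (h' : cnt X Y A a b = cnt X Y A a' b') :
    a = a' ∧ b = b' := by
  rcases same_rank hG hAB ha ha' hb hb' h with h1 | h1 | h1
  · exact h1
  · have := cnt_lt ha (H_left a b) h1
    omega
  · have := cnt_lt ha' (H_left a' b') h1
    omega

theorem pencil_inj (hG : GP X Y) {A B : Finset ι} (hAB : Lft X A B) {a b b' : ι}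
    (ha : a ∈ A) (hb : b ∈ B) (hb' : b' ∈ B)
    (h : cnt X Y B a b = cnt X Y B a b') : b = b' := by
  rcases same_rank hG hAB ha ha hb hb' h with h1 | h1 | h1
  · exact h1.2
  · have := h1 a ha
    rw [H_left, H_left] at this
    exact absurd this (lt_irrefl _)
  · have := h1 a ha
    rw [H_left, H_left] at this
    exact absurd this (lt_irrefl _)

theorem pencil_surj (hG : GP X Y) {A B : Finset ι} (hAB : Lft X A B) {a : ι}
    (ha : a ∈ A) {l : ℕ} (hl : l < B.card) : ∃ b ∈ B, cnt X Y B a b = l := by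
  have := Finset.surjOn_of_injOn_of_card_le (s := B) (t := Finset.range B.card)
    (fun b => cnt X Y B a b)
    (fun b hb => by
      simp only [coe_range, Set.mem_Iio]
      exact cnt_lt_card hb (H_right (hAB a ha b hb).ne))
    (fun b hb b' hb' h => pencil_inj hG hAB ha hb hb' h) (by simp)
  obtain ⟨b, hb, hb'⟩ := this (show l ∈ (Finset.range B.card : Set ℕ) by simpa using hl)
  exact ⟨b, hb, hb'⟩

theorem rank_surj (hG : GP X Y) {A B : Finset ι} (hAB : Lft X A B) {k l : ℕ}
    (hk : k < A.card) (hl : l < B.card) :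
    ∃ a ∈ A, ∃ b ∈ B, cnt X Y A a b = k ∧ cnt X Y B a b = l := by
  have := Finset.surjOn_of_injOn_of_card_le (s := A ×ˢ B)
    (t := Finset.range A.card ×ˢ Finset.range B.card)
    (fun e => (cnt X Y A e.1 e.2, cnt X Y B e.1 e.2))
    (fun e he => by
      have he' := mem_product.1 (mem_coe.1 he)
      simp only [coe_product, coe_range, Set.mem_prod, Set.mem_Iio]
      exact ⟨cnt_lt_card he'.1 (H_left _ _), cnt_lt_card he'.2 (H_right (hAB _ he'.1 _ he'.2).ne)⟩)
    (fun e he e' he' h => by
      have h1 := mem_product.1 (mem_coe.1 he)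
      have h2 := mem_product.1 (mem_coe.1 he')
      simp only [Prod.mk.injEq] at h
      have := rank_inj hG hAB h1.1 h2.1 h1.2 h2.2 h.2 h.1
      exact Prod.ext this.1 this.2) (by simp)
  obtain ⟨e, he, he'⟩ := this
    (show (k, l) ∈ ((Finset.range A.card ×ˢ Finset.range B.card : Finset (ℕ × ℕ)) : Set (ℕ × ℕ)) by
      simp [hk, hl])
  have h1 := mem_product.1 (mem_coe.1 he)
  simp only [Prod.mk.injEq] at he'
  exact ⟨e.1, h1.1, e.2, h1.2, he'.1, he'.2⟩

variable (X Y) in
/-- `b` is a cut point of the total rank along the pencil of lines from `a` to `B`. -/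
def Good (A B : Finset ι) (a b : ι) : Prop :=
  ∀ b' ∈ B, (cnt X Y B a b' < cnt X Y B a b →
      cnt X Y A a b' + cnt X Y B a b' < cnt X Y A a b + cnt X Y B a b) ∧
    (cnt X Y B a b < cnt X Y B a b' →
      cnt X Y A a b + cnt X Y B a b < cnt X Y A a b' + cnt X Y B a b')

theorem good_side (hG : GP X Y) {A B : Finset ι} (hAB : Lft X A B) {a a' b b' : ι}
    (ha : a ∈ A) (ha' : a' ∈ A) (hb' : b' ∈ B) (hg : Good X Y A B a b)
    (ht : cnt X Y A a' b' + cnt X Y B a' b' = cnt X Y A a b + cnt X Y B a b) :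
    (cnt X Y B a' b' < cnt X Y B a b → 0 < H X Y a' b' a) ∧
      (cnt X Y B a b < cnt X Y B a' b' → H X Y a' b' a < 0) := by
  have hl : cnt X Y B a' b' < B.card := cnt_lt_card hb' (H_right (hAB a' ha' b' hb').ne)
  obtain ⟨c, hc, hcl⟩ := pencil_surj hG hAB ha hl
  obtain ⟨g1, g2⟩ := hg c hc
  rcases same_rank hG hAB ha ha' hc hb' hcl with h1 | h1 | h1
  · obtain ⟨rfl, rfl⟩ := h1
    constructor
    · intro h
      have := g1 h
      omega
    · intro h
      have := g2 h
      omega
  · have h2 := cnt_lt ha (H_left a c) h1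
    have h3 := h1 a ha
    rw [H_left] at h3
    constructor
    · intro _
      exact h3
    · intro h
      have := g2 (by omega)
      omega
  · have h2 := cnt_lt ha' (H_left a' b') h1
    have h3 := h1 a ha
    rw [H_left a c] at h3
    constructor
    · intro h
      have := g1 (by omega)
      omega
    · intro _
      exact h3

open Classical in
theorem bad_count (hG : GP X Y) {A B : Finset ι} (hAB : Lft X A B) {a : ι} (ha : a ∈ A) :
    (B.filter fun b => ¬ Good X Y A B a b).card ≤
      2 * (A.filter fun z => X z < X a ∧ Split X Y z a B).card := by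
  set Lf := A.filter fun z => X z < X a ∧ Split X Y z a B with hLf
  set Rf := A.filter fun z => ¬ (X z < X a ∧ Split X Y z a B) with hRf
  have hsum : ∀ b, cnt X Y A a b = cnt X Y Lf a b + cnt X Y Rf a b := by
    intro b
    simp only [cnt, card_filter]
    rw [hLf, hRf]
    exact (Finset.sum_filter_add_sum_filter_not A _ _).symm
  have hslope : ∀ b ∈ B, ∀ b' ∈ B, cnt X Y B a b < cnt X Y B a b' →
      ∃ α : ℝ, 0 < α ∧ ∀ z, H X Y a b' z - H X Y a b z = α * (X z - X a) := by
    intro b hb b' hb' hlt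
    obtain ⟨α, hα⟩ := H_pencil (X := X) (Y := Y) a b b'
    refine ⟨α, ?_, hα⟩
    by_contra hc
    have : cnt X Y B a b' ≤ cnt X Y B a b := by
      apply cnt_le
      intro z hz
      have h1 := hα z
      have h2 := hAB a ha z hz
      nlinarith
    omega
  have hL : ∀ b ∈ B, ∀ b' ∈ B, cnt X Y B a b < cnt X Y B a b' →
      cnt X Y Lf a b' ≤ cnt X Y Lf a b := by
    intro b hb b' hb' hlt
    obtain ⟨α, hα0, hα⟩ := hslope b hb b' hb' hlt
    apply cnt_le
    intro z hz
    have h1 := hα z
    have h2 := (mem_filter.1 hz).2.1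
    nlinarith
  have hR : ∀ b ∈ B, ∀ b' ∈ B, cnt X Y B a b < cnt X Y B a b' →
      cnt X Y Rf a b ≤ cnt X Y Rf a b' := by
    intro b hb b' hb' hlt
    obtain ⟨α, hα0, hα⟩ := hslope b hb b' hb' hlt
    unfold cnt
    apply Finset.card_le_card
    intro z hz
    obtain ⟨hz1, hz2⟩ := mem_filter.1 hz
    refine mem_filter.2 ⟨hz1, ?_⟩
    obtain ⟨hzA, hz3⟩ := mem_filter.1 hz1
    have h1 := hα z
    by_cases hx : X z < X a
    · by_contra hc
      apply hz3
      refine ⟨hx, ?_, ?_⟩
      · refine ⟨b, hb, ?_⟩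
        have e1 := H_cyc (X := X) (Y := Y) hx.ne (hAB a ha b hb).ne
        have e2 := hAB a ha b hb
        by_contra hn
        nlinarith
      · refine ⟨b', hb', ?_⟩
        have e1 := H_cyc (X := X) (Y := Y) hx.ne (hAB a ha b' hb').ne
        have e2 := hAB a ha b' hb'
        have e3 := hAB z hzA b' hb'
        have e4 : H X Y a b' z ≠ 0 := by
          apply hG
          · intro h; rw [h] at e2; exact lt_irrefl _ e2
          · intro h; rw [h] at hx; exact lt_irrefl _ hx
          · intro h; rw [h] at e3; exact lt_irrefl _ e3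
        have e5 : H X Y a b' z < 0 := lt_of_le_of_ne (not_lt.1 hc) e4
        by_contra hn
        nlinarith
    · nlinarith
  have hjD : ∀ b, cnt X Y Lf a b ≤ Lf.card := fun b => card_filter_le _ _
  have r1 := records B (fun b => (cnt X Y B a b : ℤ))
    (fun b => (cnt X Y B a b : ℤ) + cnt X Y Rf a b) (fun b => (cnt X Y Lf a b : ℤ)) Lf.card
    (fun x hx y hy h => pencil_inj hG hAB ha hx hy (by exact_mod_cast h))
    (fun x hx y hy h => by
      have h' : cnt X Y B a x < cnt X Y B a y := by exact_mod_cast h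
      have := hR x hx y hy h'
      omega)
    (fun x hx y hy h => by
      have h' : cnt X Y B a x < cnt X Y B a y := by exact_mod_cast h
      have := hL x hx y hy h'
      omega)
    (fun x _ => by positivity)
    (fun x _ => by exact_mod_cast hjD x)
  have r2 := records B (fun b => -(cnt X Y B a b : ℤ))
    (fun b => -((cnt X Y B a b : ℤ) + cnt X Y Rf a b))
    (fun b => (Lf.card : ℤ) - (cnt X Y Lf a b : ℤ)) Lf.card
    (fun x hx y hy h => pencil_inj hG hAB ha hx hy (by omega))
    (fun x hx y hy h => by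
      have h' : cnt X Y B a y < cnt X Y B a x := by omega
      have := hR y hy x hx h'
      omega)
    (fun x hx y hy h => by
      have h' : cnt X Y B a y < cnt X Y B a x := by omega
      have := hL y hy x hx h'
      omega)
    (fun x _ => by have := hjD x; omega)
    (fun x _ => by omega)
  refine le_trans (Finset.card_le_card ?_) (le_trans (Finset.card_union_le _ _)
    (le_trans (Nat.add_le_add r1 r2) (by omega)))
  intro b hb
  obtain ⟨hbB, hb2⟩ := mem_filter.1 hb
  unfold Good at hb2
  push Not at hb2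
  obtain ⟨b', hb', h⟩ := hb2
  have s1 := hsum b
  have s2 := hsum b'
  by_cases h1 : cnt X Y B a b' < cnt X Y B a b →
      cnt X Y A a b' + cnt X Y B a b' < cnt X Y A a b + cnt X Y B a b
  · obtain ⟨h2, h3⟩ := h h1
    refine mem_union_right _ (mem_filter.2 ⟨hbB, b', hb', ?_, ?_⟩) <;> omega
  · push Not at h1
    refine mem_union_left _ (mem_filter.2 ⟨hbB, b', hb', ?_, ?_⟩) <;> omega

open Classical in
theorem bad_total (hG : GP X Y) {A B : Finset ι} (hAB : Lft X A B) :
    ((A ×ˢ B).filter fun e => ¬ Good X Y A B e.1 e.2).card ≤ 2 * spl X Y A B := by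
  have h1 : ((A ×ˢ B).filter fun e => ¬ Good X Y A B e.1 e.2).card =
      ∑ a ∈ A, (B.filter fun b => ¬ Good X Y A B a b).card := by
    simp only [card_filter]
    rw [Finset.sum_product]
  have h2 : spl X Y A B = ∑ a ∈ A, (A.filter fun z => X z < X a ∧ Split X Y z a B).card := by
    unfold spl
    simp only [card_filter]
    rw [Finset.sum_product_right]
  rw [h1, h2, Finset.mul_sum]
  exact Finset.sum_le_sum fun a ha => bad_count hG hAB ha

theorem GP_neg (hG : GP X Y) : GP (fun z => - X z) Y := by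
  intro p q z h1 h2 h3
  rw [H_neg]
  exact hG p q z h1 h2 h3

theorem Lft_neg {A B : Finset ι} (hAB : Lft X A B) : Lft (fun z => - X z) B A := by
  intro b hb a ha
  have := hAB a ha b hb
  simp only
  linarith

theorem cnt_neg {p q : ι} (h : X p ≠ X q) (S : Finset ι) :
    cnt (fun z => - X z) Y S q p = cnt X Y S p q := by
  unfold cnt
  congr 1
  apply filter_congr
  intro z _
  rw [H_neg, H_symm h]

theorem pigeon {α : Type*} (G : Finset α) (f : α → ℕ) (n : ℕ)
    (hmaps : ∀ e ∈ G, f e ∈ Finset.range n) :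
    ∃ c : ℕ, G.card ≤ n * (G.filter fun e => f e = c).card := by
  by_cases h0 : (Finset.range n).Nonempty
  · obtain ⟨c, _, hmax⟩ := Finset.exists_max_image (Finset.range n)
      (fun c => (G.filter fun e => f e = c).card) h0
    refine ⟨c, ?_⟩
    rw [Finset.card_eq_sum_card_fiberwise (f := f) (t := Finset.range n) (fun e he => hmaps e he)]
    have := Finset.sum_le_card_nsmul _ _ _ hmax
    simpa using this
  · refine ⟨0, ?_⟩
    have : G = ∅ := by
      rw [Finset.eq_empty_iff_forall_notMem]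
      intro e he
      exact h0 ⟨_, hmaps e he⟩
    simp [this]

/-- The core estimate. -/
theorem core (hG : GP X Y) {A B : Finset ι} (hAB : Lft X A B) :
    ∃ F : Finset (ι × ι), F ⊆ A ×ˢ B ∧
      (∀ e ∈ F, ∀ e' ∈ F, e ≠ e' → H X Y e.1 e.2 e'.1 * H X Y e.1 e.2 e'.2 < 0) ∧
      A.card * B.card ≤ (A.card + B.card) * F.card + 2 * spl X Y A B +
        2 * spl (fun z => - X z) Y B A := by
  classical
  set G := (A ×ˢ B).filter fun e => Good X Y A B e.1 e.2 ∧ Good (fun z => - X z) Y B A e.2 e.1
    with hGdef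
  have b1 := bad_total hG hAB
  have b2 := bad_total (GP_neg hG) (Lft_neg hAB)
  have b3 : ((A ×ˢ B).filter fun e => ¬ Good (fun z => - X z) Y B A e.2 e.1).card ≤
      ((B ×ˢ A).filter fun e => ¬ Good (fun z => - X z) Y B A e.1 e.2).card := by
    apply Finset.card_le_card_of_injOn Prod.swap
    · intro e he
      have h1 := mem_filter.1 (mem_coe.1 he)
      have h2 := mem_product.1 h1.1
      exact mem_coe.2 (mem_filter.2 ⟨mem_product.2 ⟨h2.2, h2.1⟩, h1.2⟩)
    · exact Prod.swap_injective.injOn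
  have b4 : (A ×ˢ B).card ≤ G.card + ((A ×ˢ B).filter fun e => ¬ Good X Y A B e.1 e.2).card +
      ((A ×ˢ B).filter fun e => ¬ Good (fun z => - X z) Y B A e.2 e.1).card := by
    refine le_trans (Finset.card_le_card ?_) (le_trans (Finset.card_union_le _ _)
      (Nat.add_le_add_right (Finset.card_union_le _ _) _))
    intro e he
    simp only [mem_union, hGdef, mem_filter]
    tauto
  rw [card_product] at b4
  have hmaps : ∀ e ∈ G, cnt X Y A e.1 e.2 + cnt X Y B e.1 e.2 ∈
      Finset.range (A.card + B.card) := by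
    intro e he
    have h2 := mem_product.1 (mem_filter.1 he).1
    have h3 := cnt_lt_card (X := X) (Y := Y) h2.1 (H_left e.1 e.2)
    have h4 := cnt_lt_card (X := X) (Y := Y) h2.2 (H_right (hAB _ h2.1 _ h2.2).ne)
    simp only [mem_range]
    omega
  obtain ⟨c, hc⟩ := pigeon G (fun e => cnt X Y A e.1 e.2 + cnt X Y B e.1 e.2) _ hmaps
  refine ⟨G.filter fun e => cnt X Y A e.1 e.2 + cnt X Y B e.1 e.2 = c, ?_, ?_, by omega⟩
  · intro e he
    exact (mem_filter.1 (mem_filter.1 he).1).1
  · intro e he e' he' hne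
    obtain ⟨he1, hec⟩ := mem_filter.1 he
    obtain ⟨he1', hec'⟩ := mem_filter.1 he'
    obtain ⟨hp, -, -⟩ := mem_filter.1 he1
    obtain ⟨hp', g1, g2⟩ := mem_filter.1 he1'
    obtain ⟨ha, hb⟩ := mem_product.1 hp
    obtain ⟨ha', hb'⟩ := mem_product.1 hp'
    have x1 := (hAB _ ha _ hb).ne
    have x2 := (hAB _ ha' _ hb').ne
    have s1 := good_side hG hAB ha' ha hb g1 (by omega)
    have s2 := good_side (GP_neg hG) (Lft_neg hAB) hb' hb ha g2 (by
      rw [cnt_neg x1, cnt_neg x1, cnt_neg x2, cnt_neg x2]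
      omega)
    rw [cnt_neg x1, cnt_neg x2, H_neg, ← H_symm x1] at s2
    rcases lt_trichotomy (cnt X Y B e.1 e.2) (cnt X Y B e'.1 e'.2) with h | h | h
    · exact mul_neg_of_pos_of_neg (s1.1 h) (s2.2 (by omega))
    · exfalso
      have := rank_inj hG hAB ha ha' hb hb' h (by omega)
      exact hne (Prod.ext this.1 this.2)
    · exact mul_neg_of_neg_of_pos (s1.2 h) (s2.1 (by omega))

end

end Pool.Agent.MP_4985b1_co
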