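import Mathlib
import Pool.Agent.MP_4985b1_co.Core

set_option autoImplicit false

namespace Pool.Agent.MP_4985b1_co

open Finset

section
variable {ι : Type*} (X Y : ι → ℝ)

/-- The line `y = u x + v` meets the convex hull of `S`. -/
def Meets (u v : ℝ) (S : Finset ι) : Prop :=
  (∃ z ∈ S, Y z ≤ u * X z + v) ∧ (∃ z ∈ S, u * X z + v ≤ Y z)

/-- No non-vertical line meets the convex hulls of all three sets. -/
def NoT (A B C : Finset ι) : Prop :=
  ∀ u v : ℝ, ¬ (Meets X Y u v A ∧ Meets X Y u v B ∧ Meets X Y u v C)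

variable {X Y}

theorem Meets.mono {u v : ℝ} {S T : Finset ι} (h : Meets X Y u v S) (hST : S ⊆ T) :
    Meets X Y u v T := by
  obtain ⟨⟨z, hz, h1⟩, ⟨w, hw, h2⟩⟩ := h
  exact ⟨⟨z, hST hz, h1⟩, ⟨w, hST hw, h2⟩⟩

theorem NoT.mono {A B C A' B' C' : Finset ι} (h : NoT X Y A B C) (hA : A' ⊆ A) (hB : B' ⊆ B)
    (hC : C' ⊆ C) : NoT X Y A' B' C' := by
  intro u v hh
  exact h u v ⟨hh.1.mono hA, hh.2.1.mono hB, hh.2.2.mono hC⟩

theorem Lft.mono {A B A' B' : Finset ι} (h : Lft X A B) (hA : A' ⊆ A) (hB : B' ⊆ B) :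
    Lft X A' B' := fun a ha b hb => h a (hA ha) b (hB hb)

theorem H_line (p q : ι) : ∃ u v : ℝ, ∀ z, H X Y p q z = u * X z + v - Y z := by
  refine ⟨(Y q - Y p) / (X q - X p), Y p - (Y q - Y p) / (X q - X p) * X p, ?_⟩
  intro z
  unfold H
  ring

theorem half_sides {S : Finset ι} {p q w : ι} (hw : w ∈ S) (hw0 : H X Y p q w = 0)
    (hc : cnt X Y S p q = S.card / 2) :
    S.card ≤ 2 * (S.filter fun z => 0 ≤ H X Y p q z).card ∧
      S.card ≤ 2 * (S.filter fun z => H X Y p q z ≤ 0).card := by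
  classical
  constructor
  · have : cnt X Y S p q < (S.filter fun z => 0 ≤ H X Y p q z).card := by
      unfold cnt
      apply Finset.card_lt_card
      refine ⟨?_, ?_⟩
      · intro z hz
        obtain ⟨h1, h2⟩ := mem_filter.1 hz
        exact mem_filter.2 ⟨h1, h2.le⟩
      · intro hsub
        have h1 : w ∈ S.filter fun z => 0 ≤ H X Y p q z := mem_filter.2 ⟨hw, hw0.ge⟩
        have h2 := (mem_filter.1 (hsub h1)).2
        rw [hw0] at h2
        exact lt_irrefl _ h2
    omega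
  · have h1 := Finset.card_filter_add_card_filter_not (s := S) (fun z => 0 < H X Y p q z)
    have h2 : (S.filter fun z => ¬ 0 < H X Y p q z) = S.filter fun z => H X Y p q z ≤ 0 := by
      apply filter_congr
      intro z _
      exact not_lt
    rw [h2] at h1
    unfold cnt at hc
    omega

theorem one_step (hG : GP X Y) {A B C : Finset ι} (hAB : Lft X A B) (hBC : Lft X B C)
    (hAC : Lft X A C) :
    ∃ A' ⊆ A, ∃ B' ⊆ B, ∃ C' ⊆ C, A.card ≤ 2 * A'.card ∧ B.card ≤ 2 * B'.card ∧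
      C.card ≤ 2 * C'.card ∧ NoT X Y A' B' C' := by
  classical
  by_cases hA : A.card = 0
  · refine ⟨A, le_rfl, B, le_rfl, C, le_rfl, by omega, by omega, by omega, ?_⟩
    intro u v hh
    obtain ⟨z, hz, -⟩ := hh.1.1
    rw [card_eq_zero] at hA
    simp [hA] at hz
  by_cases hC : C.card = 0
  · refine ⟨A, le_rfl, B, le_rfl, C, le_rfl, by omega, by omega, by omega, ?_⟩
    intro u v hh
    obtain ⟨z, hz, -⟩ := hh.2.2.1
    rw [card_eq_zero] at hC
    simp [hC] at hz
  obtain ⟨a, ha, c, hc, h1, h2⟩ := rank_surj hG hAC (k := A.card / 2) (l := C.card / 2)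
    (by omega) (by omega)
  obtain ⟨a1, a2⟩ := half_sides ha (H_left a c) h1
  obtain ⟨c1, c2⟩ := half_sides hc (H_right (hAC a ha c hc).ne) h2
  have hB : ∀ z ∈ B, H X Y a c z ≠ 0 := by
    intro z hz
    have e1 := hAB a ha z hz
    have e2 := hBC z hz c hc
    apply hG
    · intro h; rw [h] at e1; linarith
    · intro h; rw [h] at e1; linarith
    · intro h; rw [h] at e2; linarith
  have h3 := Finset.card_filter_add_card_filter_not (s := B) (fun z => 0 < H X Y a c z)
  obtain ⟨u0, v0, hl⟩ := H_line (X := X) (Y := Y) a c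
  by_cases hcase : B.card ≤ 2 * (B.filter fun z => 0 < H X Y a c z).card
  · refine ⟨_, filter_subset _ _, _, filter_subset _ _, _, filter_subset _ _, a2, hcase, c2, ?_⟩
    intro u v hh
    obtain ⟨⟨⟨x, hx, e1⟩, -⟩, ⟨-, ⟨y, hy, e2⟩⟩, ⟨⟨z, hz, e3⟩, -⟩⟩ := hh
    obtain ⟨hxA, f1⟩ := mem_filter.1 hx
    obtain ⟨hyB, f2⟩ := mem_filter.1 hy
    obtain ⟨hzC, f3⟩ := mem_filter.1 hz
    rw [hl] at f1 f2 f3
    have g1 := hAB x hxA y hyB
    have g2 := hBC y hyB z hzC
    rcases le_total u u0 with h | h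
    · nlinarith
    · nlinarith
  · refine ⟨_, filter_subset _ _, B.filter fun z => ¬ 0 < H X Y a c z, filter_subset _ _, _,
      filter_subset _ _, a1, by omega, c1, ?_⟩
    intro u v hh
    obtain ⟨⟨-, ⟨x, hx, e1⟩⟩, ⟨⟨y, hy, e2⟩, -⟩, ⟨-, ⟨z, hz, e3⟩⟩⟩ := hh
    obtain ⟨hxA, f1⟩ := mem_filter.1 hx
    obtain ⟨hyB, f2⟩ := mem_filter.1 hy
    obtain ⟨hzC, f3⟩ := mem_filter.1 hz
    have f2' : H X Y a c y < 0 := lt_of_le_of_ne (not_lt.1 f2) (hB y hyB)
    rw [hl] at f1 f2' f3
    have g1 := hAB x hxA y hyB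
    have g2 := hBC y hyB z hzC
    rcases le_total u u0 with h | h
    · nlinarith
    · nlinarith

theorem same_type (hG : GP X Y) {r : ℕ} (P : Fin r → Finset ι)
    (hP : ∀ i j, i < j → Lft X (P i) (P j)) (T : Finset (Fin r × Fin r × Fin r))
    (hT : ∀ t ∈ T, t.1 < t.2.1 ∧ t.2.1 < t.2.2) :
    ∃ Q : Fin r → Finset ι, (∀ i, Q i ⊆ P i) ∧ (∀ i, (P i).card ≤ 2 ^ T.card * (Q i).card) ∧
      ∀ t ∈ T, NoT X Y (Q t.1) (Q t.2.1) (Q t.2.2) := by
  classical
  induction T using Finset.induction_on with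
  | empty => exact ⟨P, fun _ => le_rfl, fun i => by simp, by simp⟩
  | insert t T htT ih =>
    obtain ⟨Q, hQ1, hQ2, hQ3⟩ := ih (fun s hs => hT s (mem_insert_of_mem hs))
    obtain ⟨i, j, k⟩ := t
    obtain ⟨hij, hjk⟩ := hT _ (mem_insert_self _ _)
    simp only at hij hjk
    obtain ⟨A', hA, B', hB, C', hC, c1, c2, c3, hN⟩ := one_step hG
      ((hP i j hij).mono (hQ1 i) (hQ1 j)) ((hP j k hjk).mono (hQ1 j) (hQ1 k))
      ((hP i k (hij.trans hjk)).mono (hQ1 i) (hQ1 k))
    let Q' : Fin r → Finset ι := fun s =>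
      if s = i then A' else if s = j then B' else if s = k then C' else Q s
    have hsub : ∀ s, Q' s ⊆ Q s := by
      intro s
      simp only [Q']
      split_ifs with h1 h2 h3
      · rw [h1]; exact hA
      · rw [h2]; exact hB
      · rw [h3]; exact hC
      · exact le_rfl
    have hcard : ∀ s, (Q s).card ≤ 2 * (Q' s).card := by
      intro s
      simp only [Q']
      split_ifs with h1 h2 h3
      · rw [h1]; exact c1
      · rw [h2]; exact c2
      · rw [h3]; exact c3
      · omega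
    refine ⟨Q', fun s => (hsub s).trans (hQ1 s), ?_, ?_⟩
    · intro s
      rw [card_insert_of_notMem htT, pow_succ, mul_assoc]
      exact (hQ2 s).trans (Nat.mul_le_mul_left _ (hcard s))
    · intro t ht
      rcases mem_insert.1 ht with rfl | ht
      · have e1 : Q' i = A' := by simp [Q']
        have e2 : Q' j = B' := by simp [Q', hij.ne']
        have e3 : Q' k = C' := by simp [Q', hjk.ne', (hij.trans hjk).ne']
        simp only [e1, e2, e3]
        exact hN
      · exact (hQ3 t ht).mono (hsub _) (hsub _) (hsub _)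

theorem NoT.neg {A B C : Finset ι} (h : NoT X Y A B C) : NoT (fun z => - X z) Y C A B := by
  intro u v hh
  apply h (-u) v
  have key : ∀ S, Meets (fun z => - X z) Y u v S → Meets X Y (-u) v S := by
    intro S hS
    obtain ⟨⟨z, hz, h1⟩, ⟨w, hw, h2⟩⟩ := hS
    exact ⟨⟨z, hz, by linarith⟩, ⟨w, hw, by linarith⟩⟩
  exact ⟨key _ hh.2.1, key _ hh.2.2, key _ hh.1⟩

theorem NoT.not_split {A B C : Finset ι} (h : NoT X Y A B C) {p q : ι} (hp : p ∈ A) :
    ¬ (Split X Y p q B ∧ Split X Y p q C) := by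
  rintro ⟨⟨⟨b, hb, e1⟩, ⟨b', hb', e2⟩⟩, ⟨⟨c, hc, e3⟩, ⟨c', hc', e4⟩⟩⟩
  obtain ⟨u, v, hl⟩ := H_line (X := X) (Y := Y) p q
  have e0 := H_left (X := X) (Y := Y) p q
  rw [hl] at e0 e1 e2 e3 e4
  exact h u v ⟨⟨⟨p, hp, by linarith⟩, ⟨p, hp, by linarith⟩⟩,
    ⟨⟨b, hb, by linarith⟩, ⟨b', hb', by linarith⟩⟩, ⟨⟨c, hc, by linarith⟩, ⟨c', hc', by linarith⟩⟩⟩

theorem pairs_le (X : ι → ℝ) (A : Finset ι) :
    2 * ((A ×ˢ A).filter fun e => X e.1 < X e.2).card ≤ A.card * A.card := by
  classical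
  have h1 := Finset.card_filter_add_card_filter_not (s := A ×ˢ A) (fun e => X e.1 < X e.2)
  have h2 : ((A ×ˢ A).filter fun e => X e.1 < X e.2).card ≤
      ((A ×ˢ A).filter fun e => ¬ X e.1 < X e.2).card := by
    apply Finset.card_le_card_of_injOn Prod.swap
    · intro e he
      have h1 := mem_filter.1 (mem_coe.1 he)
      have h2 := mem_product.1 h1.1
      exact mem_coe.2 (mem_filter.2 ⟨mem_product.2 ⟨h2.2, h2.1⟩, not_lt.2 h1.2.le⟩)
    · exact Prod.swap_injective.injOn
  rw [card_product] at h1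
  omega

theorem spl_three {A B C D : Finset ι} (h1 : NoT X Y A B C) (h2 : NoT X Y A B D)
    (h3 : NoT X Y A C D) :
    2 * (spl X Y A B + spl X Y A C + spl X Y A D) ≤ A.card * A.card := by
  classical
  refine le_trans (Nat.mul_le_mul_left _ ?_) (pairs_le X A)
  unfold spl
  simp only [card_filter]
  rw [← Finset.sum_add_distrib, ← Finset.sum_add_distrib]
  apply Finset.sum_le_sum
  intro e he
  have hp := (mem_product.1 he).1
  have e1 := h1.not_split (q := e.2) hp
  have e2 := h2.not_split (q := e.2) hp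
  have e3 := h3.not_split (q := e.2) hp
  split_ifs <;> first | omega | tauto

theorem spl_two {A B C : Finset ι} (h1 : NoT X Y A B C) :
    2 * (spl X Y A B + spl X Y A C) ≤ A.card * A.card := by
  classical
  refine le_trans (Nat.mul_le_mul_left _ ?_) (pairs_le X A)
  unfold spl
  simp only [card_filter]
  rw [← Finset.sum_add_distrib]
  apply Finset.sum_le_sum
  intro e he
  have hp := (mem_product.1 he).1
  have e1 := h1.not_split (q := e.2) hp
  split_ifs <;> first | omega | tauto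

theorem lower_part (hX : Function.Injective X) (S : Finset ι) (k : ℕ) (hk : k ≤ S.card) :
    ∃ T U : Finset ι, T ⊆ S ∧ U ⊆ S ∧ (∀ z ∈ S, z ∈ T ∨ z ∈ U) ∧ T.card = k ∧
      U.card = S.card - k ∧ Lft X T U := by
  classical
  induction k with
  | zero => exact ⟨∅, S, empty_subset _, le_rfl, fun z hz => Or.inr hz, rfl, rfl, by simp [Lft]⟩
  | succ k ih =>
    obtain ⟨T, U, hT, hU, hc, c1, c2, hL⟩ := ih (by omega)
    have hne : U.Nonempty := card_pos.1 (by omega)
    obtain ⟨w, hw, hmin⟩ := Finset.exists_min_image U X hne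
    have hwT : w ∉ T := fun h => lt_irrefl _ (hL w h w hw)
    refine ⟨insert w T, U.erase w, ?_, (erase_subset _ _).trans hU, ?_, ?_, ?_, ?_⟩
    · exact insert_subset (hU hw) hT
    · intro z hz
      by_cases hzw : z = w
      · left; rw [hzw]; exact mem_insert_self _ _
      · rcases hc z hz with h | h
        · left; exact mem_insert_of_mem h
        · right; exact mem_erase.2 ⟨hzw, h⟩
    · rw [card_insert_of_notMem hwT, c1]
    · rw [card_erase_of_mem hw, c2]; omega
    · intro a ha b hb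
      obtain ⟨hbw, hbU⟩ := mem_erase.1 hb
      rcases mem_insert.1 ha with rfl | ha
      · exact lt_of_le_of_ne (hmin b hbU) (fun h => hbw (hX h).symm)
      · exact hL a ha b hbU

theorem arith_fin (m f s t : ℕ) (h1 : m * m ≤ (m + m) * f + 2 * s + 2 * t)
    (h2 : 12 * (s + t) ≤ 5 * (m * m)) : m ≤ 12 * f := by
  have h5 : m * m ≤ m * (12 * f) := by nlinarith
  rcases Nat.eq_zero_or_pos m with h0 | h0
  · omega
  · exact Nat.le_of_mul_le_mul_left h5 h0

theorem arith_avg (M a b c d e f a' b' c' d' e' f' : ℕ) (u0 : 2 * (a + b + c) ≤ M)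
    (u1 : 2 * (d + e + f) ≤ M) (u2 : 2 * (a' + d') ≤ M) (u3 : 2 * (b' + e') ≤ M)
    (u4 : 2 * (c' + f') ≤ M) (w1 : 5 * M < 12 * (a + a')) (w2 : 5 * M < 12 * (b + b'))
    (w3 : 5 * M < 12 * (c + c')) (w4 : 5 * M < 12 * (d + d')) (w5 : 5 * M < 12 * (e + e'))
    (w6 : 5 * M < 12 * (f + f')) : False := by
  linarith

theorem triples_card : (Finset.univ.filter fun t : Fin 5 × Fin 5 × Fin 5 =>
    t.1 < t.2.1 ∧ t.2.1 < t.2.2).card = 10 := by decide +kernel

theorem five (hG : GP X Y) (P : Fin 5 → Finset ι) (hP : ∀ i j, i < j → Lft X (P i) (P j))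
    (m : ℕ) (hPc : ∀ i, 1024 * m ≤ (P i).card) :
    ∃ i j : Fin 5, i < 2 ∧ 2 ≤ j ∧ ∃ F : Finset (ι × ι), F ⊆ P i ×ˢ P j ∧
      (∀ e ∈ F, ∀ e' ∈ F, e ≠ e' → H X Y e.1 e.2 e'.1 * H X Y e.1 e.2 e'.2 < 0) ∧
      m ≤ 12 * F.card := by
  obtain ⟨Q, hQ1, hQ2, hQ3⟩ := same_type hG P hP
    (Finset.univ.filter fun t : Fin 5 × Fin 5 × Fin 5 => t.1 < t.2.1 ∧ t.2.1 < t.2.2)
    (fun t ht => (mem_filter.1 ht).2)
  rw [triples_card] at hQ2
  have hex : ∀ i, ∃ R ⊆ Q i, R.card = m := by
    intro i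
    apply Finset.exists_subset_card_eq
    have := hQ2 i
    have := hPc i
    omega
  choose R hR1 hR2 using hex
  have hN : ∀ i j k : Fin 5, i < j → j < k → NoT X Y (R i) (R j) (R k) := by
    intro i j k hij hjk
    exact (hQ3 (i, j, k) (mem_filter.2 ⟨mem_univ _, hij, hjk⟩)).mono (hR1 _) (hR1 _) (hR1 _)
  have u0 := spl_three (hN 0 2 3 (by decide) (by decide)) (hN 0 2 4 (by decide) (by decide))
    (hN 0 3 4 (by decide) (by decide))
  have u1 := spl_three (hN 1 2 3 (by decide) (by decide)) (hN 1 2 4 (by decide) (by decide))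
    (hN 1 3 4 (by decide) (by decide))
  have u2 := spl_two (hN 0 1 2 (by decide) (by decide)).neg
  have u3 := spl_two (hN 0 1 3 (by decide) (by decide)).neg
  have u4 := spl_two (hN 0 1 4 (by decide) (by decide)).neg
  rw [hR2] at u0 u1 u2 u3 u4
  obtain ⟨i, j, hi, hj, hij⟩ : ∃ i j : Fin 5, i < 2 ∧ 2 ≤ j ∧
      12 * (spl X Y (R i) (R j) + spl (fun z => - X z) Y (R j) (R i)) ≤ 5 * (m * m) := by
    by_contra hc
    push Not at hc
    exact arith_avg _ _ _ _ _ _ _ _ _ _ _ _ _ u0 u1 u2 u3 u4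
      (hc 0 2 (by decide) (by decide)) (hc 0 3 (by decide) (by decide))
      (hc 0 4 (by decide) (by decide)) (hc 1 2 (by decide) (by decide))
      (hc 1 3 (by decide) (by decide)) (hc 1 4 (by decide) (by decide))
  have hs : ∀ i, R i ⊆ P i := fun i => (hR1 i).trans (hQ1 i)
  obtain ⟨F, hF1, hF2, hF3⟩ := core hG ((hP i j (lt_of_lt_of_le hi hj)).mono (hs i) (hs j))
  refine ⟨i, j, hi, hj, F, hF1.trans (product_subset_product (hs i) (hs j)), hF2, ?_⟩
  rw [hR2, hR2] at hF3
  exact arith_fin _ _ _ _ hF3 hij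

/-- A crossing family of linear size between two vertically separated sets. -/
theorem separated (hX : Function.Injective X) (hG : GP X Y) {A B : Finset ι} (hAB : Lft X A B)
    (m : ℕ) (hA : 3072 * m ≤ A.card) (hB : 3072 * m ≤ B.card) :
    ∃ F : Finset (ι × ι), F ⊆ A ×ˢ B ∧
      (∀ e ∈ F, ∀ e' ∈ F, e ≠ e' → H X Y e.1 e.2 e'.1 * H X Y e.1 e.2 e'.2 < 0) ∧
      m ≤ 12 * F.card := by
  obtain ⟨A0, A1, s0, s1, -, c0, c1, l01⟩ := lower_part hX A (1024 * m) (by omega)
  obtain ⟨B0, B', t0, t', -, d0, d', l0'⟩ := lower_part hX B (1024 * m) (by omega)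
  obtain ⟨B1, B2, t1, t2, -, d1, d2, l12⟩ := lower_part hX B' (1024 * m) (by omega)
  have e0 : 1024 * m ≤ A0.card := by omega
  have e1 : 1024 * m ≤ A1.card := by omega
  have e2 : 1024 * m ≤ B0.card := by omega
  have e3 : 1024 * m ≤ B1.card := by omega
  have e4 : 1024 * m ≤ B2.card := by omega
  have q1 := hAB.mono s0 t0
  have q2 := hAB.mono s0 (t1.trans t')
  have q3 := hAB.mono s0 (t2.trans t')
  have q4 := hAB.mono s1 t0
  have q5 := hAB.mono s1 (t1.trans t')
  have q6 := hAB.mono s1 (t2.trans t')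
  have q7 := l0'.mono le_rfl t1
  have q8 := l0'.mono le_rfl t2
  have v1 := t1.trans t'
  have v2 := t2.trans t'
  obtain ⟨i, j, hi, hj, F, hF1, hF2, hF3⟩ := five hG ![A0, A1, B0, B1, B2] (by
      intro i j hij
      fin_cases i <;> fin_cases j <;> first | assumption | exact absurd hij (by decide)) m (by
      intro i
      fin_cases i <;> assumption)
  refine ⟨F, hF1.trans (product_subset_product ?_ ?_), hF2, hF3⟩
  · fin_cases i <;> first | assumption | exact absurd hi (by decide)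
  · fin_cases j <;> first | assumption | exact absurd hj (by decide)

/-- The bichromatic version, with arbitrary colour classes. -/
theorem bichromatic (hX : Function.Injective X) (hG : GP X Y) {V W : Finset ι}
    (hVW : Disjoint V W) (r : ℕ) (hV : V.card = r) (hW : W.card = r) :
    ∃ F : Finset (ι × ι), F ⊆ V ×ˢ W ∧
      (∀ e ∈ F, ∀ e' ∈ F, e ≠ e' → H X Y e.1 e.2 e'.1 * H X Y e.1 e.2 e'.2 < 0) ∧
      r / 6144 ≤ 12 * F.card := by
  classical
  have hc : (V ∪ W).card = 2 * r := by rw [card_union_of_disjoint hVW]; omega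
  obtain ⟨T, U, hT, hU, hTU, c1, c2, hL⟩ := lower_part hX (V ∪ W) r (by omega)
  have k1 : T.card ≤ (T ∩ V).card + (T ∩ W).card := by
    refine le_trans (card_le_card ?_) (card_union_le _ _)
    intro z hz
    have := hT hz
    simp only [mem_union, mem_inter] at this ⊢
    tauto
  have k2 : (T ∩ V).card + (T ∩ W).card ≤ T.card := by
    rw [← card_union_of_disjoint (hVW.mono inter_subset_right inter_subset_right)]
    exact card_le_card (union_subset inter_subset_left inter_subset_left)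
  have k3 : V.card ≤ (T ∩ V).card + (U ∩ V).card := by
    refine le_trans (card_le_card ?_) (card_union_le _ _)
    intro z hz
    have := hTU z (mem_union_left _ hz)
    simp only [mem_union, mem_inter]
    tauto
  have k4 : W.card ≤ (T ∩ W).card + (U ∩ W).card := by
    refine le_trans (card_le_card ?_) (card_union_le _ _)
    intro z hz
    have := hTU z (mem_union_right _ hz)
    simp only [mem_union, mem_inter]
    tauto
  by_cases hcase : r ≤ 2 * (T ∩ V).card
  · obtain ⟨F, h1, h2, h3⟩ := separated hX hG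
      (hL.mono (inter_subset_left (s₂ := V)) (inter_subset_left (s₂ := W))) (r / 6144)
      (by omega) (by omega)
    exact ⟨F, h1.trans (product_subset_product inter_subset_right inter_subset_right), h2, h3⟩
  · obtain ⟨F, h1, h2, h3⟩ := separated hX hG
      (hL.mono (inter_subset_left (s₂ := W)) (inter_subset_left (s₂ := V))) (r / 6144)
      (by omega) (by omega)
    refine ⟨F.image Prod.swap, ?_, ?_, ?_⟩
    · intro e he
      obtain ⟨f, hf, rfl⟩ := mem_image.1 he
      have := mem_product.1 (h1 hf)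
      exact mem_product.2 ⟨(mem_inter.1 this.2).2, (mem_inter.1 this.1).2⟩
    · intro e he e' he' hne
      obtain ⟨f, hf, rfl⟩ := mem_image.1 he
      obtain ⟨f', hf', rfl⟩ := mem_image.1 he'
      have h4 := h2 f hf f' hf' (fun h => hne (by rw [h]))
      have h5 := mem_product.1 (h1 hf)
      have h6 := (hL _ (mem_inter.1 h5.1).1 _ (mem_inter.1 h5.2).1).ne
      simp only [Prod.fst_swap, Prod.snd_swap]
      rw [← H_symm h6, ← H_symm h6, mul_comm]
      exact h4
    · rw [card_image_of_injective _ Prod.swap_injective]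
      exact h3

end

end Pool.Agent.MP_4985b1_co
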