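import Mathlib
import Pool.Agent.MP_4985b1_co.SameType

set_option autoImplicit false

namespace Pool.Agent.MP_4985b1_co

open Finset

/-- Orientation determinant. -/
def det3 (p q z : ℝ × ℝ) : ℝ := (q.1 - p.1) * (z.2 - p.2) - (q.2 - p.2) * (z.1 - p.1)

theorem collinear_of_det {p q z : ℝ × ℝ} (hpq : p ≠ q) (h : det3 p q z = 0) :
    Collinear ℝ ({p, q, z} : Set (ℝ × ℝ)) := by
  rw [collinear_iff_of_mem (p₀ := p) (by simp)]
  refine ⟨q - p, ?_⟩
  intro w hw
  simp only [Set.mem_insert_iff, Set.mem_singleton_iff] at hw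
  rcases hw with rfl | rfl | rfl
  · exact ⟨0, by simp⟩
  · exact ⟨1, by simp⟩
  · unfold det3 at h
    by_cases h1 : q.1 - p.1 = 0
    · have h2 : q.2 - p.2 ≠ 0 := by
        intro h2
        exact hpq (Prod.ext (by linarith) (by linarith))
      refine ⟨(w.2 - p.2) / (q.2 - p.2), ?_⟩
      have h3 : w.1 - p.1 = 0 := by
        rw [h1] at h
        have : (q.2 - p.2) * (w.1 - p.1) = 0 := by linarith
        exact (mul_eq_zero.1 this).resolve_left h2
      apply Prod.ext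
      · simp only [vadd_eq_add, Prod.fst_add, Prod.smul_fst, Prod.fst_sub, smul_eq_mul, h1]
        linarith
      · simp only [vadd_eq_add, Prod.snd_add, Prod.smul_snd, Prod.snd_sub, smul_eq_mul]
        field_simp
        ring
    · refine ⟨(w.1 - p.1) / (q.1 - p.1), ?_⟩
      apply Prod.ext
      · simp only [vadd_eq_add, Prod.fst_add, Prod.smul_fst, Prod.fst_sub, smul_eq_mul]
        field_simp
        ring
      · simp only [vadd_eq_add, Prod.snd_add, Prod.smul_snd, Prod.snd_sub, smul_eq_mul]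
        field_simp
        linarith

theorem ratio_mem {d e : ℝ} (h : d * e < 0) :
    d - e ≠ 0 ∧ 0 < d / (d - e) ∧ 0 < -e / (d - e) := by
  rcases lt_trichotomy d 0 with hd | hd | hd
  · have he : 0 < e := by nlinarith
    exact ⟨by linarith, div_pos_of_neg_of_neg hd (by linarith),
      div_pos_of_neg_of_neg (by linarith) (by linarith)⟩
  · rw [hd] at h; simp at h
  · have he : e < 0 := by nlinarith
    exact ⟨by linarith, div_pos hd (by linarith), div_pos (by linarith) (by linarith)⟩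

theorem cross_of_det {a b c d : ℝ × ℝ} (h1 : det3 a b c * det3 a b d < 0)
    (h2 : det3 c d a * det3 c d b < 0) :
    (openSegment ℝ a b ∩ openSegment ℝ c d).Nonempty := by
  obtain ⟨n1, p1, p2⟩ := ratio_mem h1
  obtain ⟨n2, p3, p4⟩ := ratio_mem h2
  have e : det3 c d a - det3 c d b = -(det3 a b c - det3 a b d) := by
    unfold det3; ring
  refine ⟨(-det3 c d b / (det3 c d a - det3 c d b)) • a +
    (det3 c d a / (det3 c d a - det3 c d b)) • b, ⟨_, _, p4, p3, ?_, rfl⟩,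
    ⟨_, _, p2, p1, ?_, ?_⟩⟩
  · field_simp
    ring
  · field_simp
    ring
  · rw [e]
    apply Prod.ext
    · simp only [Prod.fst_add, Prod.smul_fst, smul_eq_mul]
      field_simp
      unfold det3
      ring
    · simp only [Prod.snd_add, Prod.smul_snd, smul_eq_mul]
      field_simp
      unfold det3
      ring

theorem exists_shear (P : Finset (ℝ × ℝ)) :
    ∃ ε : ℝ, ∀ p ∈ P, ∀ q ∈ P, p.1 + ε * p.2 = q.1 + ε * q.2 → p = q := by
  classical
  obtain ⟨ε, hε⟩ := Infinite.exists_notMem_finset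
    ((P ×ˢ P).image fun e => (e.2.1 - e.1.1) / (e.1.2 - e.2.2))
  refine ⟨ε, ?_⟩
  intro p hp q hq h
  by_cases h2 : p.2 = q.2
  · rw [h2] at h
    exact Prod.ext (by linarith) h2
  · exfalso
    apply hε
    refine mem_image.2 ⟨(p, q), mem_product.2 ⟨hp, hq⟩, ?_⟩
    have : p.2 - q.2 ≠ 0 := sub_ne_zero.2 h2
    simp only
    field_simp
    linarith

theorem H_mul {ι : Type*} {X Y : ι → ℝ} {p q : ι} (h : X p ≠ X q) (z : ι) :
    H X Y p q z * (X q - X p) = (Y q - Y p) * (X z - X p) + (Y p - Y z) * (X q - X p) := by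
  have h1 : X q - X p ≠ 0 := sub_ne_zero.2 h.symm
  unfold H
  field_simp
  ring

theorem H_det {ι : Type*} (f : ι → ℝ × ℝ) (ε : ℝ) {p q : ι}
    (h : (f p).1 + ε * (f p).2 ≠ (f q).1 + ε * (f q).2) (z : ι) :
    H (fun z => (f z).1 + ε * (f z).2) (fun z => (f z).2) p q z *
      ((f q).1 + ε * (f q).2 - ((f p).1 + ε * (f p).2)) = - det3 (f p) (f q) (f z) := by
  rw [H_mul (X := fun z => (f z).1 + ε * (f z).2) (Y := fun z => (f z).2) h z]
  unfold det3
  ring

theorem plane_bip (P V W : Finset (ℝ × ℝ)) (hVP : V ⊆ P) (hWP : W ⊆ P) (r : ℕ) (hr : 1 ≤ r)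
    (hd : Disjoint V W) (hV : V.card = r) (hW : W.card = r)
    (hgp : ∀ x ∈ P, ∀ y ∈ P, ∀ z ∈ P, x ≠ y → y ≠ z → x ≠ z →
      ¬ Collinear ℝ ({x, y, z} : Set (ℝ × ℝ))) :
    ∃ F : Finset ((ℝ × ℝ) × (ℝ × ℝ)), F ⊆ V ×ˢ W ∧
      (∀ e ∈ F, ∀ e' ∈ F, e ≠ e' →
        (openSegment ℝ e.1 e.2 ∩ openSegment ℝ e'.1 e'.2).Nonempty) ∧
      r ≤ 147456 * F.card := by
  classical
  by_cases hsmall : r < 6144
  · obtain ⟨a, ha⟩ : V.Nonempty := card_pos.1 (by omega)
    obtain ⟨b, hb⟩ : W.Nonempty := card_pos.1 (by omega)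
    refine ⟨{(a, b)}, by simp [ha, hb], ?_, ?_⟩
    · intro e he e' he' hne
      rw [mem_singleton] at he he'
      exact absurd (he.trans he'.symm) hne
    · rw [card_singleton]
      omega
  obtain ⟨ε, hε⟩ := exists_shear P
  have hX : Function.Injective (fun z : P => z.1.1 + ε * z.1.2) := by
    intro p q h
    exact Subtype.ext (hε _ p.2 _ q.2 h)
  have hG : GP (fun z : P => z.1.1 + ε * z.1.2) (fun z : P => z.1.2) := by
    intro p q z h1 h2 h3 h0
    have e := H_det (fun z : P => z.1) ε (p := p) (q := q) (fun h => h1 (hX h)) z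
    rw [h0, zero_mul] at e
    have h1' : p.1 ≠ q.1 := fun h => h1 (Subtype.ext h)
    exact hgp _ p.2 _ q.2 _ z.2 h1' (fun h => h3 (Subtype.ext h)) (fun h => h2 (Subtype.ext h))
      (collinear_of_det h1' (by linarith))
  have hd' : Disjoint (V.subtype (· ∈ P)) (W.subtype (· ∈ P)) := by
    rw [Finset.disjoint_left]
    intro z h1 h2
    exact Finset.disjoint_left.1 hd (mem_subtype.1 h1) (mem_subtype.1 h2)
  obtain ⟨F, h1, h2, h3⟩ := bichromatic hX hG hd' r
    (by rw [card_subtype, filter_true_of_mem (fun x hx => hVP hx), hV])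
    (by rw [card_subtype, filter_true_of_mem (fun x hx => hWP hx), hW])
  have hinj : Function.Injective (fun e : P × P => (e.1.1, e.2.1)) := by
    intro e e' h
    simp only [Prod.mk.injEq] at h
    exact Prod.ext (Subtype.ext h.1) (Subtype.ext h.2)
  have hdet : ∀ e ∈ F, ∀ e' ∈ F, e ≠ e' →
      det3 e.1.1 e.2.1 e'.1.1 * det3 e.1.1 e.2.1 e'.2.1 < 0 := by
    intro e he e' he' hne
    have h4 := h2 e he e' he' hne
    have h5 := mem_product.1 (h1 he)
    have h6 : e.1 ≠ e.2 := fun h => Finset.disjoint_left.1 hd' h5.1 (h ▸ h5.2)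
    have h7 : e.1.1.1 + ε * e.1.1.2 ≠ e.2.1.1 + ε * e.2.1.2 := fun h => h6 (hX h)
    have e1 := H_det (fun z : P => z.1) ε (p := e.1) (q := e.2) h7 e'.1
    have e2 := H_det (fun z : P => z.1) ε (p := e.1) (q := e.2) h7 e'.2
    have h8 : 0 < (e.2.1.1 + ε * e.2.1.2 - (e.1.1.1 + ε * e.1.1.2)) ^ 2 :=
      sq_pos_of_ne_zero (sub_ne_zero.2 h7.symm)
    have h9 := mul_neg_of_neg_of_pos h4 h8
    have e3 : det3 e.1.1 e.2.1 e'.1.1 * det3 e.1.1 e.2.1 e'.2.1 =
        (- det3 e.1.1 e.2.1 e'.1.1) * (- det3 e.1.1 e.2.1 e'.2.1) := by ring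
    rw [e3, ← e1, ← e2]
    linarith
  refine ⟨F.image fun e : P × P => (e.1.1, e.2.1), ?_, ?_, ?_⟩
  · intro e he
    obtain ⟨f, hf, rfl⟩ := mem_image.1 he
    have := mem_product.1 (h1 hf)
    exact mem_product.2 ⟨mem_subtype.1 this.1, mem_subtype.1 this.2⟩
  · intro e he e' he' hne
    obtain ⟨f, hf, rfl⟩ := mem_image.1 he
    obtain ⟨f', hf', rfl⟩ := mem_image.1 he'
    have h4 : f ≠ f' := fun h => hne (by rw [h])
    exact cross_of_det (hdet f hf f' hf' h4) (hdet f' hf' f hf h4.symm)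
  · rw [card_image_of_injective _ hinj]
    omega

end Pool.Agent.MP_4985b1_co
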