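import Mathlib
import Pool.Agent.MP_4985b1_co.Plane

set_option autoImplicit false

namespace Pool.Agent.MP_4985b1_co

open Finset

theorem q2 :
    ∃ c : ℝ, 0 < c ∧
      ∀ (r : ℕ) (V₁ V₂ : Finset (ℝ × ℝ)), 1 ≤ r → Disjoint V₁ V₂ → V₁.card = r → V₂.card = r →
        (∀ x ∈ V₁ ∪ V₂, ∀ y ∈ V₁ ∪ V₂, ∀ z ∈ V₁ ∪ V₂, x ≠ y → y ≠ z → x ≠ z →
          ¬ Collinear ℝ ({x, y, z} : Set (ℝ × ℝ))) →
        ∃ F : Finset ((ℝ × ℝ) × (ℝ × ℝ)), F ⊆ V₁ ×ˢ V₂ ∧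
          (∀ e ∈ F, ∀ e' ∈ F, e ≠ e' →
            (openSegment ℝ e.1 e.2 ∩ openSegment ℝ e'.1 e'.2).Nonempty) ∧
          c * (r : ℝ) ≤ (F.card : ℝ) := by
  refine ⟨1 / 147456, by norm_num, ?_⟩
  intro r V W hr hd hV hW hgp
  obtain ⟨F, h1, h2, h3⟩ := plane_bip (V ∪ W) V W subset_union_left subset_union_right r hr hd
    hV hW hgp
  refine ⟨F, h1, h2, ?_⟩
  have : (r : ℝ) ≤ 147456 * (F.card : ℝ) := by exact_mod_cast h3
  linarith

theorem q1 :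
    ∃ c : ℝ, 0 < c ∧
      ∀ P : Finset (ℝ × ℝ), 2 ≤ P.card →
        (∀ x ∈ P, ∀ y ∈ P, ∀ z ∈ P, x ≠ y → y ≠ z → x ≠ z →
          ¬ Collinear ℝ ({x, y, z} : Set (ℝ × ℝ))) →
        ∃ k : ℕ, ∃ a b : Fin k → ℝ × ℝ,
          (∀ i, a i ∈ P ∧ b i ∈ P ∧ a i ≠ b i) ∧
          Function.Injective (fun i => s(a i, b i)) ∧
          (∀ i j, i ≠ j →
            (openSegment ℝ (a i) (b i) ∩ openSegment ℝ (a j) (b j)).Nonempty) ∧
          c * (P.card : ℝ) ≤ (k : ℝ) := by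
  classical
  refine ⟨1 / 442368, by norm_num, ?_⟩
  intro P hP hgp
  obtain ⟨V, hVP, hV⟩ := Finset.exists_subset_card_eq (s := P) (n := P.card / 2) (by omega)
  obtain ⟨W, hWP, hW⟩ := Finset.exists_subset_card_eq (s := P \ V) (n := P.card / 2) (by
    rw [card_sdiff_of_subset hVP]
    omega)
  have hd : Disjoint V W := Finset.disjoint_sdiff.mono_right hWP
  obtain ⟨F, h1, h2, h3⟩ := plane_bip P V W hVP (hWP.trans sdiff_subset) (P.card / 2) (by omega)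
    hd hV hW hgp
  have hmem : ∀ i : Fin F.card, (F.equivFin.symm i).1.1 ∈ V ∧ (F.equivFin.symm i).1.2 ∈ W :=
    fun i => mem_product.1 (h1 (F.equivFin.symm i).2)
  have hne : ∀ i j : Fin F.card, (F.equivFin.symm i).1 = (F.equivFin.symm j).1 → i = j :=
    fun i j h => F.equivFin.symm.injective (Subtype.ext h)
  refine ⟨F.card, fun i => (F.equivFin.symm i).1.1, fun i => (F.equivFin.symm i).1.2,
    ?_, ?_, ?_, ?_⟩
  · intro i
    obtain ⟨h4, h5⟩ := hmem i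
    refine ⟨hVP h4, (hWP.trans sdiff_subset) h5, ?_⟩
    intro h
    exact Finset.disjoint_left.1 hd h4 (by simpa [h] using h5)
  · intro i j h
    simp only [Sym2.eq_iff] at h
    rcases h with h | h
    · exact hne i j (Prod.ext h.1 h.2)
    · exact absurd (hmem j).2 (Finset.disjoint_left.1 hd (h.1 ▸ (hmem i).1))
  · intro i j hij
    exact h2 _ (F.equivFin.symm i).2 _ (F.equivFin.symm j).2 (fun h => hij (hne i j h))
  · have h4 : P.card ≤ 442368 * F.card := by omega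
    have : (P.card : ℝ) ≤ 442368 * (F.card : ℝ) := by exact_mod_cast h4
    linarith

theorem q1_frozen :
    ∃ c : ℝ, 0 < c ∧
      ∀ P : Finset (ℝ × ℝ), 2 ≤ P.card →
        (∀ x ∈ P, ∀ y ∈ P, ∀ z ∈ P, x ≠ y → y ≠ z → x ≠ z →
          ¬ Collinear ℝ ({x, y, z} : Set (ℝ × ℝ))) →
        ∃ k : ℕ, ∃ a b : Fin k → ℝ × ℝ,
          (∀ i, a i ∈ P ∧ b i ∈ P ∧ a i ≠ b i) ∧
          Function.Injective (fun i => Sym2.mk (a i, b i)) ∧
          (∀ i j, i ≠ j →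
            (openSegment ℝ (a i) (b i) ∩ openSegment ℝ (a j) (b j)).Nonempty) ∧
          c * (P.card : ℝ) ≤ (k : ℝ) := by
  obtain ⟨c, hc, h⟩ := q1
  refine ⟨c, hc, fun P hP hgp => ?_⟩
  obtain ⟨k, a, b, h1, h2, h3, h4⟩ := h P hP hgp
  refine ⟨k, a, b, h1, ?_, h3, h4⟩
  intro i j hij
  apply h2
  have h5 := congrFun hij (a i, b i)
  simp only [Sym2.eq_iff, Prod.mk.injEq] at h5
  have h6 : a i = a j ∧ b i = b j := by tauto
  simp only [h6.1, h6.2]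

end Pool.Agent.MP_4985b1_co
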